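import Pool.Agent.Q284.TW.Van

/-! The twists of the families by characters of finite order and by the powers of the norm. -/

set_option autoImplicit false
set_option linter.unusedSectionVars false

namespace Pool.Agent.Q284.TW

open Filter Topology UnitAddTorus ComplexConjugate NumberField IsDedekindDomain
  Pool.Agent.W540.BE Pool.Agent.TH553.RS Pool.Agent.TH553.ST Pool.Agent.H341R2 Pool.Agent.Q284.IM
  Pool.Agent.Q284.JM Pool.Agent.Q284.CP Pool.Agent.W401.Cheb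

/-- positive definiteness for a general system of characters -/
theorem pd_gen {K : Type} [Field K] [NumberField K] {n : ℕ} [NeZero n] {Λ : Type} [AddCommGroup Λ]
    {e : Fin n → Λ → HeightOneSpectrum (𝓞 K) → ℂ} (F : Fam e) {φ : Λ → ℤ}
    (h : ∀ U : Ultrafilter ℝ, (U : Filter ℝ) ≤ 𝓝[>] 0 → ∀ a,
      M (nm K) U (fun v => (∑ i, e i a v).re) = φ a) : PD φ ∧ φ 0 = n := by
  classical
  set U : Ultrafilter ℝ := Ultrafilter.of (𝓝[>] 0) with hU
  have hU' : (U : Filter ℝ) ≤ 𝓝[>] 0 := Ultrafilter.of_le _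
  have hn : (0 : ℝ) < n := by
    exact_mod_cast Nat.pos_of_ne_zero (NeZero.ne n)
  have hne : Nonempty (Fin n) := ⟨0⟩
  have e1 : ∀ a, (φ a : ℝ) = n * Pool.Agent.Q284.IM.av (nm K) e U a := by
    intro a
    rw [← h U hU' a]
    unfold Pool.Agent.Q284.IM.av
    rw [Fintype.card_fin, ← mul_assoc, mul_inv_cancel₀ hn.ne', one_mul,
      ← M_sum (sysF K) hU' Finset.univ fun i _ => F.bd i a]
    congr 1
    funext v
    rw [Complex.re_sum]
  refine ⟨⟨fun a => ?_, fun c => ?_⟩, ?_⟩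
  · have h2 := e1 (-a)
    rw [av_neg F, ← e1 a] at h2
    exact_mod_cast h2
  · have h2 := av_pd F (sysF K) hU' c.support c
    unfold frm Finsupp.sum
    have h3 : ∑ a ∈ c.support, ∑ b ∈ c.support, c a * c b * (φ (a - b) : ℝ) =
        n * ∑ a ∈ c.support, ∑ b ∈ c.support, c a * c b *
          Pool.Agent.Q284.IM.av (nm K) e U (a - b) := by
      rw [Finset.mul_sum]
      refine Finset.sum_congr rfl fun a _ => ?_
      rw [Finset.mul_sum]
      refine Finset.sum_congr rfl fun b _ => ?_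
      rw [e1]
      ring
    rw [h3]
    exact mul_nonneg hn.le h2
  · have h2 := e1 0
    rw [av_zero F (sysF K) hU', mul_one] at h2
    exact_mod_cast h2

section

variable {K : Type} [Field K] [NumberField K] {r n : ℕ}
  (x : Fin n → HeightOneSpectrum (𝓞 K) → UnitAddTorus (Fin r))
  (σ : HeightOneSpectrum (𝓞 K) → GK K)

/-- the eigenvalues of the twist -/
noncomputable def tw (k : Fin r → ℤ) (χ : GK K →* Circle) (v : HeightOneSpectrum (𝓞 K))
    (i : Fin n) : ℂ := mFourier k (x i v) * (χ (σ v) : ℂ)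

theorem norm_tw (k : Fin r → ℤ) (χ : GK K →* Circle) (v : HeightOneSpectrum (𝓞 K)) (i : Fin n) :
    ‖tw x σ k χ v i‖ = 1 := by
  unfold tw
  rw [norm_mul, norm_mF, Circle.norm_coe, one_mul]

/-- the group of the indices -/
abbrev Ix (K : Type) [Field K] [NumberField K] (r : ℕ) (Θ : AddSubgroup ℝ) : Type :=
  (Fin r → ℤ) × (Additive (chars K) × Θ)

variable {Θ : AddSubgroup ℝ}

/-- the character -/
def ch (a : Additive (chars K)) : GK K →* Circle := (Additive.toMul a : chars K)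

theorem ch_add (a b : Additive (chars K)) (g : GK K) : ch (a + b) g = ch a g * ch b g := rfl

theorem ch_zero : ch (0 : Additive (chars K)) = 1 := rfl

theorem open_ch (a : Additive (chars K)) : IsOpen ((ch a).ker : Set (GK K)) := (Additive.toMul a).2

/-- the system of characters -/
noncomputable def sy (i : Fin n) (a : Ix K r Θ) (v : HeightOneSpectrum (𝓞 K)) : ℂ :=
  tw x σ a.1 (ch a.2.1) v i * ((nm K v : ℕ) : ℂ) ^ (-((a.2.2 : ℝ) * Complex.I : ℂ))

theorem nm_posK (v : HeightOneSpectrum (𝓞 K)) : 0 < nm K v := by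
  have := (sysF K).sys.two_le v
  omega

theorem fam_sy : Fam (fun i (a : Ix K r Θ) v => sy x σ i a v) := by
  refine ⟨fun i a v => ?_, fun i a b v => ?_⟩
  · unfold sy
    rw [norm_mul, norm_tw, norm_cpow_I (nm_posK v), one_mul]
  · have hN : ((nm K v : ℕ) : ℂ) ≠ 0 := by
      have := nm_posK v
      exact_mod_cast this.ne'
    unfold sy tw
    have e1 : (a + b).2.1 = a.2.1 + b.2.1 := rfl
    have e2 : (((a + b).2.2 : ℝ) : ℂ) = (a.2.2 : ℝ) + (b.2.2 : ℝ) := by
      have : (a + b).2.2 = a.2.2 + b.2.2 := rfl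
      rw [this]
      push_cast
      rfl
    have e3 : (a + b).1 = a.1 + b.1 := rfl
    rw [e1, e2, e3, ch_add, mFourier_add, Circle.coe_mul, add_mul, neg_add, Complex.cpow_add _ _ hN]
    ring

/-- the orders of the twists -/
theorem exists_ordT (hL : ∀ a : Ix K r Θ, ∃ F, Ce (tw x σ a.1 (ch a.2.1)) a.2.2 F) :
    ∃ φ : Ix K r Θ → ℤ,
    (∀ a F, Ce (tw x σ a.1 (ch a.2.1)) a.2.2 F →
      meromorphicOrderAt F (1 + (a.2.2 : ℝ) * Complex.I) = ((-φ a : ℤ) : WithTop ℤ)) ∧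
    ∀ U : Ultrafilter ℝ, (U : Filter ℝ) ≤ 𝓝[>] 0 → ∀ a,
      M (nm K) U (fun v => (∑ i, sy x σ i a v).re) = φ a ∧
      M (nm K) U (fun v => (∑ i, sy x σ i a v).im) = 0 := by
  have h1 : ∀ a : Ix K r Θ, ∃ m : ℤ, (∀ F, Ce (tw x σ a.1 (ch a.2.1)) a.2.2 F →
      meromorphicOrderAt F (1 + (a.2.2 : ℝ) * Complex.I) = ((-m : ℤ) : WithTop ℤ)) ∧
      ∀ U : Ultrafilter ℝ, (U : Filter ℝ) ≤ 𝓝[>] 0 →
      M (nm K) U (fun v => (∑ i, sy x σ i a v).re) = m ∧
      M (nm K) U (fun v => (∑ i, sy x σ i a v).im) = 0 := by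
    intro a
    have hsum : ∀ v, ∑ i, sy x σ i a v = (∑ i, tw x σ a.1 (ch a.2.1) v i) *
        ((nm K v : ℕ) : ℂ) ^ (-((a.2.2 : ℝ) * Complex.I : ℂ)) := by
      intro v
      unfold sy
      rw [Finset.sum_mul]
    obtain ⟨F, hF⟩ := hL a
    obtain ⟨m, hm1, hm2⟩ := order_EL (norm_tw x σ a.1 (ch a.2.1)) hF
    refine ⟨-m, fun F' hF' => ?_, fun U hU => ?_⟩
    · obtain ⟨m', hm1', hm2'⟩ := order_EL (norm_tw x σ a.1 (ch a.2.1)) hF'
      have h2 := (hm2 (Ultrafilter.of (𝓝[>] 0)) (Ultrafilter.of_le _)).1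
      rw [(hm2' (Ultrafilter.of (𝓝[>] 0)) (Ultrafilter.of_le _)).1] at h2
      have h3 : m' = m := by
        have : (m' : ℝ) = m := by linarith
        exact_mod_cast this
      rw [hm1', h3, neg_neg]
    · simp only [hsum]
      rw [(hm2 U hU).1, (hm2 U hU).2]
      push_cast
      exact ⟨rfl, rfl⟩
  choose φ hφ using h1
  exact ⟨φ, fun a => (hφ a).1, fun U hU a => (hφ a).2 U hU⟩

/-- the characters of finite order have mean zero -/
theorem mean_ch (hσ : ∀ v, IsFrob v (σ v)) {χ : GK K →* Circle} (hχ : χ ∈ chars K)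
    (hne : χ ≠ 1) : Tendsto (fun n : ℕ => (∑ v ∈ upto K n, (χ (σ v) : ℂ)) /
      (Nat.primeCounting n : ℂ)) atTop (𝓝 (((0 : ℝ)) : ℂ)) := by
  classical
  have : Finite (GK K ⧸ χ.ker) := Subgroup.quotient_finite_of_isOpen _ hχ
  let Q := GK K ⧸ χ.ker
  letI : Fintype Q := Fintype.ofFinite _
  let ψ : (GK K ⧸ χ.ker) →* ℂ := (Circle.coeHom).comp (QuotientGroup.kerLift χ)
  have hψ : ∀ s : GK K, ψ (QuotientGroup.mk s) = (χ s : ℂ) := fun s => rfl
  have hψ1 : ψ ≠ 1 := by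
    intro h1
    apply hne
    ext s
    have h2 : ψ (QuotientGroup.mk s) = 1 := by rw [h1]; rfl
    rw [hψ] at h2
    rw [h2]
    simp
  have h1 := cheb_mean χ.ker hχ (fun a => ψ a) (fun a g => by
    rw [map_mul, map_mul, mul_comm (ψ g), mul_assoc, ← map_mul, mul_inv_cancel, map_one, mul_one])
    σ hσ
  have h2 : ∑ᶠ q, ψ q = 0 := by
    rw [finsum_eq_sum_of_fintype]
    exact sum_hom_units_eq_zero ψ hψ1
  rw [h2, mul_zero] at h1
  rw [Complex.ofReal_zero]
  exact h1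

theorem mean_one : Tendsto (fun n : ℕ => (∑ v ∈ upto K n, (1 : ℂ)) /
      (Nat.primeCounting n : ℂ)) atTop (𝓝 (((1 : ℝ)) : ℂ)) := by
  refine mn_tendsto ?_
  have h1 : ∀ᶠ n in atTop, (mn (K := K) (fun _ => (1 : ℂ)) n) = ((1 : ℝ) : ℂ) := by
    filter_upwards [(tendsto_order.1 (card_ratio (K := K))).1 (1 / 2) (by norm_num)]
      with n hn
    unfold mn
    have h2 : ((upto K n).card : ℝ) ≠ 0 := by
      intro h3
      rw [h3, zero_div] at hn
      norm_num at hn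
    rw [Finset.sum_const, nsmul_eq_mul, mul_one]
    rw [Complex.real_smul]
    push_cast
    rw [inv_mul_cancel₀]
    exact_mod_cast h2
  exact tendsto_const_nhds.congr' (h1.mono fun n hn => hn.symm)

/-- the orders at the trivial character of the torus -/
theorem ord_triv (hσ : ∀ v, IsFrob v (σ v)) {φ : Ix K r Θ → ℤ}
    (h : ∀ U : Ultrafilter ℝ, (U : Filter ℝ) ≤ 𝓝[>] 0 → ∀ a,
      M (nm K) U (fun v => (∑ i, sy x σ i a v).re) = φ a) {b : Additive (chars K) × Θ} (hb : b ≠ 0) :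
    φ (0, b) = 0 := by
  set U : Ultrafilter ℝ := Ultrafilter.of (𝓝[>] 0) with hU
  have hU' : (U : Filter ℝ) ≤ 𝓝[>] 0 := Ultrafilter.of_le _
  have h1 := h U hU' (0, b)
  have e1 : ∀ v, (∑ i : Fin n, sy x σ i ((0, b) : Ix K r Θ) v).re =
      n * ((ch b.1 (σ v) : ℂ) * ((nm K v : ℕ) : ℂ) ^ (-((b.2 : ℝ) * Complex.I : ℂ))).re := by
    intro v
    unfold sy tw
    simp only [mFourier_zero, ContinuousMap.one_apply, one_mul]
    rw [Finset.sum_const, Finset.card_univ, Fintype.card_fin, nsmul_eq_mul]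
    have : ((n : ℕ) : ℂ) = ((n : ℝ) : ℂ) := by push_cast; rfl
    rw [this, Complex.re_ofReal_mul]
  have hnorm : ∀ v, ‖(ch b.1 (σ v) : ℂ)‖ ≤ 1 := fun v => (Circle.norm_coe _).le
  have hbd : Bd fun v => ((ch b.1 (σ v) : ℂ) *
      ((nm K v : ℕ) : ℂ) ^ (-((b.2 : ℝ) * Complex.I : ℂ))).re := by
    refine ⟨1, fun v => (Complex.abs_re_le_norm _).trans ?_⟩
    rw [norm_mul, norm_cpow_I (nm_posK v), mul_one]
    exact hnorm v
  simp only [e1] at h1
  rw [M_const_mul (sysF K) hU' hbd] at h1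
  have h2 : M (nm K) U (fun v => ((ch b.1 (σ v) : ℂ) *
      ((nm K v : ℕ) : ℂ) ^ (-((b.2 : ℝ) * Complex.I : ℂ))).re) = 0 := by
    by_cases hc : ch b.1 = 1
    · have hτ : (b.2 : ℝ) ≠ 0 := by
        intro h3
        apply hb
        have h4 : b.1 = 0 := by
          apply Additive.toMul.injective
          apply Subtype.ext
          exact hc
        exact Prod.ext h4 (Subtype.ext h3)
      have h3 := mean_edge (F := K) (g := fun _ => (1 : ℂ)) (B := 1) (fun v => by simp) 1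
        mean_one (b.2 : ℝ)
      rw [if_neg hτ] at h3
      have h4 := M_of_tendsto hU' h3
      rw [← h4]
      congr 1
      funext v
      rw [hc]
      simp
    · have h3 := mean_edge (F := K) (g := fun v => (ch b.1 (σ v) : ℂ)) (B := 1) hnorm 0
        (mean_ch σ hσ (open_ch b.1) hc) (b.2 : ℝ)
      rw [ite_self] at h3
      exact M_of_tendsto hU' h3
  rw [h2, mul_zero] at h1
  exact_mod_cast h1.symm

/-- the characters of finite order are torsion elements -/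
theorem tors (a : Additive (chars K)) : ∃ m : ℕ, 0 < m ∧ m • a = 0 := by
  have hf : Finite (GK K ⧸ (ch a).ker) := Subgroup.quotient_finite_of_isOpen _ (open_ch a)
  refine ⟨Nat.card (GK K ⧸ (ch a).ker), Nat.card_pos, ?_⟩
  apply Additive.toMul.injective
  apply Subtype.ext
  have e1 : ∀ m : ℕ, ((Additive.toMul (m • a) : chars K) : GK K →* Circle) = (ch a) ^ m := by
    intro m
    rfl
  rw [e1]
  show (ch a) ^ _ = 1
  ext g
  have h1 : g ^ Nat.card (GK K ⧸ (ch a).ker) ∈ (ch a).ker := by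
    rw [← QuotientGroup.eq_one_iff, QuotientGroup.mk_pow, pow_card_eq_one']
  rw [MonoidHom.mem_ker, map_pow] at h1
  rw [MonoidHom.pow_apply, h1, MonoidHom.one_apply]

/-- **The governing extension.** -/
theorem govern [NeZero n] (hσ : ∀ v, IsFrob v (σ v))
    (hL : ∀ a : Ix K r Θ, ∃ F, Ce (tw x σ a.1 (ch a.2.1)) a.2.2 F) :
    ∃ (φ : Ix K r Θ → ℤ) (U : Subgroup (GK K)) (A : AddSubgroup ℝ),
      (∀ a F, Ce (tw x σ a.1 (ch a.2.1)) a.2.2 F →
        meromorphicOrderAt F (1 + (a.2.2 : ℝ) * Complex.I) = ((-φ a : ℤ) : WithTop ℤ)) ∧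
      (∀ W : Ultrafilter ℝ, (W : Filter ℝ) ≤ 𝓝[>] 0 → ∀ a,
        M (nm K) W (fun v => (∑ i, sy x σ i a v).re) = φ a ∧
        M (nm K) W (fun v => (∑ i, sy x σ i a v).im) = 0) ∧
      (∀ k (S : Finset (Additive (chars K) × Θ)), ∑ b ∈ S, φ (k, b) ^ 2 ≤ (n : ℤ) ^ 2) ∧
      IsOpen (U : Set (GK K)) ∧ commutator (GK K) ≤ U ∧ A.FG ∧ A ≤ Θ ∧
      ∀ a, φ a ≠ 0 → U ≤ (ch a.2.1).ker ∧ (a.2.2 : ℝ) ∈ A := by
  classical
  obtain ⟨φ, hφ1, hφ2⟩ := exists_ordT x σ hL
  obtain ⟨hpd, h0⟩ := pd_gen (fam_sy x σ) (φ := φ) fun W hW a => (hφ2 W hW a).1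
  have hB : ∀ b : Additive (chars K) × Θ, b ≠ 0 → φ (0, b) = 0 := fun b hb =>
    ord_triv x σ hσ (fun W hW a => (hφ2 W hW a).1) hb
  obtain ⟨P, hP1, hP2⟩ := fg_supp hpd hB
  -- the finite group of characters
  set P1 : Submodule ℤ (Additive (chars K)) := P.map (LinearMap.fst ℤ _ _) with hP1d
  have hP1fg : P1.FG := hP1.map _
  have hfin : Finite P1 := by
    have : Module.Finite ℤ P1 := Module.Finite.iff_fg.2 hP1fg
    refine Module.finite_of_fg_torsion P1 fun a => ?_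
    obtain ⟨m, hm, hma⟩ := tors a.1
    refine ⟨⟨(m : ℤ), ?_⟩, ?_⟩
    · rw [mem_nonZeroDivisors_iff_ne_zero]
      exact_mod_cast hm.ne'
    · apply Subtype.ext
      show ((m : ℤ) • (a : Additive (chars K))) = 0
      rw [natCast_zsmul]
      exact hma
  set U : Subgroup (GK K) := ⨅ a : P1, (ch a.1).ker with hU
  set A : AddSubgroup ℝ := (P.map (Θ.subtype.toIntLinearMap.comp
    (LinearMap.snd ℤ (Additive (chars K)) Θ))).toAddSubgroup with hA
  refine ⟨φ, U, A, hφ1, hφ2, fun k S => ?_, ?_, ?_, ?_, ?_, fun a ha => ?_⟩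
  · have h1 := bessel hpd hB k S
    rw [h0] at h1
    exact h1
  · rw [hU, Subgroup.coe_iInf]
    exact isOpen_iInter_of_finite fun a => open_ch a.1
  · rw [hU]
    refine le_iInf fun a => ?_
    rw [commutator_def, Subgroup.commutator_le]
    intro g _ h _
    rw [MonoidHom.mem_ker, commutatorElement_def, map_mul, map_mul, map_mul, map_inv, map_inv]
    rw [mul_comm ((ch a.1) g), mul_assoc, mul_assoc, mul_inv_cancel_left, mul_inv_cancel]
  · rw [hA]
    have h1 : (P.map (Θ.subtype.toIntLinearMap.comp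
      (LinearMap.snd ℤ (Additive (chars K)) Θ))).FG := hP1.map _
    rwa [Submodule.fg_iff_addSubgroup_fg] at h1
  · rintro _ ⟨y, -, rfl⟩
    exact y.2.2
  · have h1 : a.2 ∈ P := hP2 a.1 a.2 ha
    constructor
    · rw [hU]
      exact iInf_le (fun a : P1 => (ch a.1).ker) ⟨a.2.1, a.2, h1, rfl⟩
    · exact ⟨a.2, h1, rfl⟩

end

end Pool.Agent.Q284.TW
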