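import Pool.Agent.Q284.CP.Pos

/-! Positive definite functions with integer values on `ℤ^r × X` that vanish at the nonzero elements
of `X`: the support is contained in `ℤ^r × P` for a finitely generated subgroup `P` of `X`. -/

set_option autoImplicit false

namespace Pool.Agent.Q284.TW

open Pool.Agent.Q284.CP Pool.Agent.Q284.IM

section

variable {Λ : Type} [AddCommGroup Λ]

theorem PD_sum {ι : Type} (s : Finset ι) {ψ : ι → Λ → ℤ} (h : ∀ i ∈ s, PD (ψ i)) :
    PD fun a => ∑ i ∈ s, ψ i a := by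
  refine ⟨fun a => Finset.sum_congr rfl fun i hi => (h i hi).symm a, fun c => ?_⟩
  have e : frm (fun a b => ((∑ i ∈ s, ψ i (a - b) : ℤ) : ℝ)) c c =
      ∑ i ∈ s, frm (fun a b => (ψ i (a - b) : ℝ)) c c := by
    unfold frm Finsupp.sum
    have e1 : ∀ a b, c a * c b * ((∑ i ∈ s, ψ i (a - b) : ℤ) : ℝ) =
        ∑ i ∈ s, c a * c b * (ψ i (a - b) : ℝ) := by
      intro a b
      push_cast
      rw [Finset.mul_sum]
    rw [Finset.sum_comm (s := s)]
    refine Finset.sum_congr rfl fun a _ => ?_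
    rw [Finset.sum_comm (s := s)]
    exact Finset.sum_congr rfl fun b _ => e1 a b
  rw [e]
  exact Finset.sum_nonneg fun i hi => (h i hi).nonneg c

theorem PD_fin {φ : Λ → ℤ} (hφ : PD φ) (S : Finset Λ) :
    0 ≤ ∑ a ∈ S, ∑ b ∈ S, φ (a - b) := by
  obtain ⟨H, _, _, _, e, he⟩ := hφ.gns
  have h1 : (0 : ℝ) ≤ inner ℝ (∑ a ∈ S, e a) (∑ a ∈ S, e a) := real_inner_self_nonneg
  rw [sum_inner] at h1
  simp only [inner_sum, he] at h1
  exact_mod_cast h1

end

section

variable {r : ℕ} {X : Type} [AddCommGroup X] {φ : (Fin r → ℤ) × X → ℤ} (hφ : PD φ)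
  (hB : ∀ x : X, x ≠ 0 → φ (0, x) = 0)

include hφ hB

/-- **The inequality of Bessel.** -/
theorem bessel (k : Fin r → ℤ) (S : Finset X) : ∑ x ∈ S, φ (k, x) ^ 2 ≤ φ 0 ^ 2 := by
  classical
  rcases hφ.zero_le.eq_or_lt with h0 | h0
  · have h1 : ∀ a, φ a = 0 := fun a => by
      have h1 := hφ.le a
      rw [← h0] at h1
      exact abs_nonpos_iff.1 h1
    simp [h1]
  obtain ⟨H, _, _, _, e, he⟩ := hφ.gns
  have h0' : (0 : ℝ) < φ 0 := by exact_mod_cast h0
  set s : ℝ := Real.sqrt (φ 0) with hs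
  have hs0 : 0 < s := Real.sqrt_pos.2 h0'
  have hss : s * s = φ 0 := Real.mul_self_sqrt h0'.le
  set u : X → H := fun x => s⁻¹ • e (0, -x) with hu
  have huo : Orthonormal ℝ u := by
    constructor
    · intro x
      have h1 : ‖e (0, -x)‖ = s := by
        rw [hs, ← Real.sqrt_sq (norm_nonneg _), ← real_inner_self_eq_norm_sq, he, sub_self]
      rw [hu]
      simp only
      rw [norm_smul, h1, norm_inv, Real.norm_of_nonneg hs0.le, inv_mul_cancel₀ hs0.ne']
    · intro x y hxy
      rw [hu]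
      simp only
      rw [real_inner_smul_left, real_inner_smul_right, he]
      have h1 : ((0, -x) : (Fin r → ℤ) × X) - (0, -y) = (0, y - x) := by
        ext <;> simp [sub_eq_add_neg, add_comm]
      rw [h1, hB (y - x) (sub_ne_zero.2 (Ne.symm hxy))]
      simp
  have h1 := huo.sum_inner_products_le (x := e (k, 0)) (s := S)
  have h2 : ∀ x, ‖inner ℝ (u x) (e (k, 0))‖ ^ 2 = (φ (k, x) : ℝ) ^ 2 / φ 0 := by
    intro x
    rw [hu]
    simp only
    rw [real_inner_smul_left, he]
    have h3 : ((0, -x) : (Fin r → ℤ) × X) - (k, 0) = -(k, x) := by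
      ext <;> simp
    rw [h3, hφ.symm, Real.norm_eq_abs, sq_abs, mul_pow, inv_pow, ← hss, sq s]
    field_simp
  simp_rw [h2] at h1
  rw [← Finset.sum_div, ← real_inner_self_eq_norm_sq, he, sub_self, div_le_iff₀ h0'] at h1
  rw [← sq] at h1
  exact_mod_cast h1

/-- finitely many periods in `X` -/
theorem fin_per {ψ : (Fin r → ℤ) × X → ℤ} (hψ : PD ψ) (h0 : 0 < ψ 0)
    (hd : PD fun a => φ a - ψ a) (S : Finset X) (hS : ∀ x ∈ S, ((0, x) : (Fin r → ℤ) × X) ∈ per hψ) :
    (S.card : ℤ) ≤ φ 0 := by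
  classical
  set T : Finset ((Fin r → ℤ) × X) := S.image fun x => (0, x) with hT
  have hinj : Function.Injective fun x : X => ((0, x) : (Fin r → ℤ) × X) := fun x y h => by
    simpa using h
  have h1 := PD_fin hd T
  have h2 : ∀ a ∈ T, ∀ b ∈ T, φ (a - b) - ψ (a - b) = (if a = b then φ 0 else 0) - ψ 0 := by
    intro a ha b hb
    rw [hT, Finset.mem_image] at ha hb
    obtain ⟨x, hx, rfl⟩ := ha
    obtain ⟨y, hy, rfl⟩ := hb
    have h3 : ((0, x) : (Fin r → ℤ) × X) - (0, y) ∈ per hψ :=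
      (per hψ).sub_mem (hS x hx) (hS y hy)
    rw [mem_per] at h3
    rw [h3]
    congr 1
    split_ifs with h4
    · rw [h4, sub_self]
    · have h5 : ((0, x) : (Fin r → ℤ) × X) - (0, y) = (0, x - y) := by
        ext <;> simp
      rw [h5]
      refine hB _ (sub_ne_zero.2 fun h6 => h4 (by rw [h6]))
  have h3 : ∑ a ∈ T, ∑ b ∈ T, (φ (a - b) - ψ (a - b)) = T.card * φ 0 - T.card * T.card * ψ 0 := by
    rw [Finset.sum_congr rfl fun a ha => Finset.sum_congr rfl fun b hb => h2 a ha b hb]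
    simp only [Finset.sum_sub_distrib, Finset.sum_const, nsmul_eq_mul, Finset.sum_ite_eq]
    rw [Finset.sum_congr rfl (g := fun _ => φ 0) fun a ha => by rw [if_pos ha], Finset.sum_const,
      nsmul_eq_mul]
    ring
  have hcard : T.card = S.card := Finset.card_image_of_injective _ hinj
  rw [h3, hcard] at h1
  rcases (Nat.zero_le S.card).eq_or_lt with h4 | h4
  · rw [← h4]
    exact hφ.zero_le
  · have h5 : (0 : ℤ) < S.card := by exact_mod_cast h4
    have h6 : 0 ≤ (S.card : ℤ) * (φ 0 - S.card * ψ 0) := by nlinarith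
    have h7 : 0 ≤ φ 0 - S.card * ψ 0 := by
      by_contra hlt
      push Not at hlt
      nlinarith
    nlinarith

/-- **Finite generation.** -/
theorem fg_supp : ∃ P : Submodule ℤ X, P.FG ∧ ∀ k x, φ (k, x) ≠ 0 → x ∈ P := by
  classical
  obtain ⟨N, ψ, h1, h2, h3, h4, h5⟩ := decomp hφ
  have hd : ∀ j, PD fun a => φ a - ψ j a := by
    intro j
    have h6 := PD_sum (Finset.univ.erase j) (ψ := ψ) fun i _ => h2 i
    have h7 : (fun a => φ a - ψ j a) = fun a => ∑ i ∈ Finset.univ.erase j, ψ i a := by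
      funext a
      rw [h4 a, ← Finset.add_sum_erase _ _ (Finset.mem_univ j)]
      ring
    rw [h7]
    exact h6
  choose T hT using h5
  -- the groups of periods
  set G : Fin N → Submodule ℤ ((Fin r → ℤ) × X) := fun j =>
    AddSubgroup.toIntSubmodule (per (h2 j)) with hG
  have hGfg : ∀ j, (G j).FG := by
    intro j
    refine Submodule.fg_of_fg_map_of_fg_inf_ker (LinearMap.fst ℤ (Fin r → ℤ) X)
      (IsNoetherian.noetherian _) ?_
    have hfin : ((G j ⊓ LinearMap.ker (LinearMap.fst ℤ (Fin r → ℤ) X) :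
        Submodule ℤ ((Fin r → ℤ) × X)) : Set ((Fin r → ℤ) × X)).Finite := by
      have h6 : {x : X | ((0, x) : (Fin r → ℤ) × X) ∈ per (h2 j)}.Finite := by
        by_contra hinf
        obtain ⟨S, hS1, hS2⟩ := (Set.Infinite.exists_subset_card_eq hinf) ((φ 0).toNat + 1)
        have h7 := fin_per hφ hB (h2 j) (h3 j) (hd j) S fun x hx => hS1 hx
        rw [hS2] at h7
        have h8 : ((φ 0).toNat : ℤ) = φ 0 := Int.toNat_of_nonneg hφ.zero_le
        push_cast at h7
        omega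
      refine (h6.image fun x => ((0, x) : (Fin r → ℤ) × X)).subset ?_
      rintro ⟨k, x⟩ ⟨hkx, hk⟩
      have hk0 : k = 0 := hk
      subst hk0
      exact ⟨x, hkx, rfl⟩
    have h6 := Submodule.fg_span (R := ℤ) hfin
    rwa [Submodule.span_eq] at h6
  refine ⟨⨆ j, ((G j).map (LinearMap.snd ℤ (Fin r → ℤ) X) ⊔
    Submodule.span ℤ (((T j).image Prod.snd : Finset X) : Set X)), ?_, fun k x hx => ?_⟩
  · refine Submodule.fg_iSup _ fun j => ?_
    exact ((hGfg j).map _).sup (Submodule.fg_span (Finset.finite_toSet _))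
  · rw [h4] at hx
    obtain ⟨j, -, hj⟩ := Finset.exists_ne_zero_of_sum_ne_zero hx
    obtain ⟨b, hb, hb'⟩ := hT j _ hj
    refine Submodule.mem_iSup_of_mem j ?_
    have h6 : x = ((k, x) - b).2 + b.2 := by simp
    rw [h6]
    refine Submodule.add_mem_sup ?_ ?_
    · exact ⟨(k, x) - b, hb', rfl⟩
    · exact Submodule.subset_span (Finset.mem_coe.2 (Finset.mem_image_of_mem _ hb))

end

end Pool.Agent.Q284.TW
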