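import Pool.Agent.Q284.TW.Fam

/-! The laws of the Artin symbols. -/

set_option autoImplicit false
set_option linter.unusedSectionVars false

namespace Pool.Agent.Q284.TW

open Filter Topology UnitAddTorus ComplexConjugate NumberField IsDedekindDomain
  Pool.Agent.W540.BE Pool.Agent.TH553.RS Pool.Agent.TH553.ST Pool.Agent.H341R2 Pool.Agent.Q284.IM
  Pool.Agent.Q284.JM Pool.Agent.Q284.CP Pool.Agent.W401.Cheb

section

variable {K : Type} [Field K] [NumberField K] {r n : ℕ}
  (x : Fin n → HeightOneSpectrum (𝓞 K) → UnitAddTorus (Fin r))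
  (σ : HeightOneSpectrum (𝓞 K) → GK K) {Θ : AddSubgroup ℝ} {φ : Ix K r Θ → ℤ}
  {U : Subgroup (GK K)}

/-- the character as an element of the index group -/
def mk (χ : GK K →* Circle) (hχ : χ ∈ chars K) : Additive (chars K) := Additive.ofMul ⟨χ, hχ⟩

theorem ch_mk (χ : GK K →* Circle) (hχ : χ ∈ chars K) : ch (mk χ hχ) = χ := rfl

/-- **The law of the Artin symbols, Dirichlet density.** -/
theorem dir_symb (hφ : ∀ W : Ultrafilter ℝ, (W : Filter ℝ) ≤ 𝓝[>] 0 → ∀ a : Ix K r Θ,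
        M (nm K) W (fun v => (∑ i, sy x σ i a v).re) = φ a ∧
        M (nm K) W (fun v => (∑ i, sy x σ i a v).im) = 0)
    (hU : ∀ a, φ a ≠ 0 → U ≤ (ch a.2.1).ker) {W : Ultrafilter ℝ} (hW : (W : Filter ℝ) ≤ 𝓝[>] 0)
    {f : UnitAddTorus (Fin r) → ℝ} (hf : Continuous f)
    (V : Subgroup (GK K)) (hV : IsOpen (V : Set (GK K))) (hc : commutator (GK K) ≤ V)
    (g u : GK K) (hu : u ∈ U) :
    M (nm K) W (fun v => (∑ i, f (x i v)) * (ind V g (σ v) - ind V (g * u) (σ v))) = 0 := by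
  have hL : Lf (M (nm K) W) := lf_M (sysF K) hW
  refine symb hL σ U (bd_f x hf) (fun χ hχ hne => ?_) V hV hc g u hu
  refine van x hL (fun v => (Circle.norm_coe _).le) (fun k => ?_) hf
  have h0 : φ (k, (mk χ hχ, 0)) = 0 := by
    by_contra h1
    exact hne (hU _ h1)
  obtain ⟨h1, h2⟩ := hφ W hW (k, (mk χ hχ, 0))
  rw [h0, Int.cast_zero] at h1
  have e : ∀ v, ∑ i, sy x σ i ((k, (mk χ hχ, 0)) : Ix K r Θ) v =
      ∑ i, mFourier k (x i v) * (χ (σ v) : ℂ) := by
    intro v
    refine Finset.sum_congr rfl fun i _ => ?_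
    unfold sy tw
    simp [ch_mk]
  simp only [e] at h1 h2
  exact ⟨h1, h2⟩

/-- **The law of the Artin symbols, natural density.** -/
theorem nat_symb (hL : ∀ k χ, χ ∈ chars K → ∀ τ : ℝ, ∃ F, Ce (tw x σ k χ) τ F)
    (h0 : ∀ k χ, χ ∈ chars K → ¬ U ≤ χ.ker → ∀ (τ : ℝ) F, Ce (tw x σ k χ) τ F →
      meromorphicOrderAt F (1 + τ * Complex.I) = ((0 : ℤ) : WithTop ℤ))
    {f : UnitAddTorus (Fin r) → ℝ} (hf : Continuous f)
    (V : Subgroup (GK K)) (hV : IsOpen (V : Set (GK K))) (hc : commutator (GK K) ≤ V)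
    (g u : GK K) (hu : u ∈ U) :
    Tendsto (mn fun v => (∑ i, f (x i v)) * (ind V g (σ v) - ind V (g * u) (σ v))) atTop
      (𝓝 0) := by
  classical
  rw [Filter.tendsto_iff_ultrafilter]
  intro W hW
  obtain ⟨L, hLf, hLV⟩ := exists_lf (K := K) hW
  have hbi : ∀ g : GK K, Bd fun v => ind V g (σ v) := fun g => ⟨1, fun v => by
    show |ind V g (σ v)| ≤ 1
    unfold ind
    split_ifs <;> simp⟩
  have hbd : Bd fun v => (∑ i, f (x i v)) * (ind V g (σ v) - ind V (g * u) (σ v)) :=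
    (bd_f x hf).mul ((hbi g).sub (hbi (g * u)))
  have key : L (fun v => (∑ i, f (x i v)) * (ind V g (σ v) - ind V (g * u) (σ v))) = 0 := by
    refine symb hLf σ U (bd_f x hf) (fun χ hχ hne => ?_) V hV hc g u hu
    refine van x hLf (fun v => (Circle.norm_coe _).le) (fun k => ?_) hf
    have h1 : Tendsto (mn fun v => ∑ i, tw x σ k χ v i) atTop (𝓝 (((0 : ℤ) : ℝ) : ℂ)) := by
      refine avg_EL (norm_tw x σ k χ) fun τ => ?_
      obtain ⟨F, hF⟩ := hL k χ hχ τ
      refine ⟨F, hF, ?_⟩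
      rw [neg_zero, ite_self]
      exact h0 k χ hχ hne τ F hF
    have hbs : ∀ v, ‖∑ i, tw x σ k χ v i‖ ≤ n := norm_sum_al' (norm_tw x σ k χ)
    constructor
    · have h2 := hLV (fun v => (∑ i, tw x σ k χ v i).re) ⟨n, fun v =>
        (Complex.abs_re_le_norm _).trans (hbs v)⟩
      have h3 := ((Complex.continuous_re.tendsto _).comp h1).mono_left hW
      refine tendsto_nhds_unique h2 ?_
      rw [Int.cast_zero, Complex.ofReal_zero, Complex.zero_re] at h3
      refine h3.congr fun N => ?_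
      simp only [Function.comp]
      rw [re_mn]
    · have h2 := hLV (fun v => (∑ i, tw x σ k χ v i).im) ⟨n, fun v =>
        (Complex.abs_im_le_norm _).trans (hbs v)⟩
      have h3 := ((Complex.continuous_im.tendsto _).comp h1).mono_left hW
      refine tendsto_nhds_unique h2 ?_
      rw [Int.cast_zero, Complex.ofReal_zero, Complex.zero_im] at h3
      refine h3.congr fun N => ?_
      simp only [Function.comp]
      rw [im_mn]
  have := hLV _ hbd
  rwa [key] at this

end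

end Pool.Agent.Q284.TW
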