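import Pool.Agent.Q284.TW.Gen
import Pool.Agent.Q284.CP.Nd
import Pool.Agent.W540.BE.Freq

/-! Functionals on the functions of the primes: vanishing of the Fourier coefficients and Artin
symbols. -/

set_option autoImplicit false
set_option linter.unusedSectionVars false

namespace Pool.Agent.Q284.TW

open Filter Topology UnitAddTorus ComplexConjugate NumberField IsDedekindDomain
  Pool.Agent.W540.BE Pool.Agent.TH553.RS Pool.Agent.TH553.ST Pool.Agent.H341R2 Pool.Agent.Q284.IM
  Pool.Agent.Q284.JM Pool.Agent.Q284.CP Pool.Agent.W401.Cheb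

open scoped commutatorElement

section

variable {K : Type} [Field K] [NumberField K] {r n : ℕ}
  (x : Fin n → HeightOneSpectrum (𝓞 K) → UnitAddTorus (Fin r))
  {L : (HeightOneSpectrum (𝓞 K) → ℝ) → ℝ} (hL : Lf L)

theorem fn_w (hL : Lf L) {w : HeightOneSpectrum (𝓞 K) → ℝ} (hw : ∀ v, |w v| ≤ 1) :
    Fn (fun f => L fun v => (∑ i, f (x i v)) * w v) n where
  add := fun f g hf hg => by
    have hwb : Bd w := ⟨1, hw⟩
    simp only
    rw [← hL.add _ _ ((bd_f x hf).mul hwb) ((bd_f x hg).mul hwb)]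
    congr 1
    funext v
    rw [Finset.sum_add_distrib]
    ring
  mul := fun a f hf => by
    have hwb : Bd w := ⟨1, hw⟩
    simp only
    rw [← hL.smul a _ ((bd_f x hf).mul hwb)]
    congr 1
    funext v
    rw [← Finset.mul_sum]
    ring
  bd := fun f hf b hb => by
    have hwb : Bd w := ⟨1, hw⟩
    refine hL.le _ _ ((bd_f x hf).mul hwb) fun v => ?_
    rw [abs_mul]
    have h1 : |∑ i, f (x i v)| ≤ n * b := by
      refine (Finset.abs_sum_le_sum_abs _ _).trans ((Finset.sum_le_sum fun i _ => hb _).trans ?_)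
      simp
    calc |∑ i, f (x i v)| * |w v| ≤ |∑ i, f (x i v)| * 1 :=
          mul_le_mul_of_nonneg_left (hw v) (abs_nonneg _)
      _ ≤ n * b := by rw [mul_one]; exact h1

theorem fn_zero : Fn (fun _ : UnitAddTorus (Fin r) → ℝ => (0 : ℝ)) 0 where
  add := fun _ _ _ _ => by simp
  mul := fun _ _ _ => by simp
  bd := fun _ _ _ _ => by simp

/-- vanishing Fourier coefficients -/
theorem van (hL : Lf L) {c : HeightOneSpectrum (𝓞 K) → ℂ} (hc : ∀ v, ‖c v‖ ≤ 1)
    (h : ∀ k : Fin r → ℤ, L (fun v => (∑ i, mFourier k (x i v) * c v).re) = 0 ∧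
      L (fun v => (∑ i, mFourier k (x i v) * c v).im) = 0)
    {f : UnitAddTorus (Fin r) → ℝ} (hf : Continuous f) :
    L (fun v => (∑ i, f (x i v)) * (c v).re) = 0 ∧
      L (fun v => (∑ i, f (x i v)) * (c v).im) = 0 := by
  have hcr : ∀ v, |(c v).re| ≤ 1 := fun v => (Complex.abs_re_le_norm _).trans (hc v)
  have hci : ∀ v, |(c v).im| ≤ 1 := fun v => (Complex.abs_im_le_norm _).trans (hc v)
  have hre : ∀ k : Fin r → ℤ, Continuous fun y : UnitAddTorus (Fin r) => (mFourier k y).re :=
    fun k => Complex.continuous_re.comp (mFourier k).continuous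
  have him : ∀ k : Fin r → ℤ, Continuous fun y : UnitAddTorus (Fin r) => (mFourier k y).im :=
    fun k => Complex.continuous_im.comp (mFourier k).continuous
  have hcj : ∀ (k : Fin r → ℤ) (y : UnitAddTorus (Fin r)), mFourier (-k) y = conj (mFourier k y) :=
    fun k y => by
      rw [mFourier_neg]
  -- the four products
  set a : (Fin r → ℤ) → HeightOneSpectrum (𝓞 K) → ℝ := fun k v => ∑ i, (mFourier k (x i v)).re
    with ha
  set b : (Fin r → ℤ) → HeightOneSpectrum (𝓞 K) → ℝ := fun k v => ∑ i, (mFourier k (x i v)).im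
    with hb
  have hab : ∀ k, Bd (a k) := fun k => bd_f x (hre k)
  have hbb : ∀ k, Bd (b k) := fun k => bd_f x (him k)
  have hR : Bd fun v => (c v).re := ⟨1, hcr⟩
  have hI : Bd fun v => (c v).im := ⟨1, hci⟩
  have e1 : ∀ k, (fun v => (∑ i, mFourier k (x i v) * c v).re) = fun v =>
      a k v * (c v).re + (-1) * (b k v * (c v).im) := by
    intro k
    funext v
    rw [← Finset.sum_mul, Complex.mul_re, Complex.re_sum, Complex.im_sum]
    ring
  have e2 : ∀ k, (fun v => (∑ i, mFourier k (x i v) * c v).im) = fun v =>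
      a k v * (c v).im + b k v * (c v).re := by
    intro k
    funext v
    rw [← Finset.sum_mul, Complex.mul_im, Complex.re_sum, Complex.im_sum]
  have e3 : ∀ k, a (-k) = a k := by
    intro k
    funext v
    rw [ha]
    simp only [hcj, Complex.conj_re]
  have e4 : ∀ k, b (-k) = fun v => (-1) * b k v := by
    intro k
    funext v
    rw [hb]
    simp only [hcj, Complex.conj_im]
    rw [Finset.sum_neg_distrib]
    ring
  have f1 : ∀ k, L (fun v => a k v * (c v).re) + -1 * L (fun v => b k v * (c v).im) = 0 := by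
    intro k
    have h1 := (h k).1
    rw [e1, hL.add _ _ ((hab k).mul hR) (((hbb k).mul hI).const_mul _),
      hL.smul _ _ ((hbb k).mul hI)] at h1
    exact h1
  have f2 : ∀ k, L (fun v => a k v * (c v).im) + L (fun v => b k v * (c v).re) = 0 := by
    intro k
    have h1 := (h k).2
    rw [e2, hL.add _ _ ((hab k).mul hI) ((hbb k).mul hR)] at h1
    exact h1
  have f3 : ∀ k, L (fun v => b (-k) v * (c v).im) = - L (fun v => b k v * (c v).im) := by
    intro k
    have : (fun v => b (-k) v * (c v).im) = fun v => (-1) * (b k v * (c v).im) := by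
      rw [e4]
      funext v
      ring
    rw [this, hL.smul _ _ ((hbb k).mul hI)]
    ring
  have f4 : ∀ k, L (fun v => b (-k) v * (c v).re) = - L (fun v => b k v * (c v).re) := by
    intro k
    have : (fun v => b (-k) v * (c v).re) = fun v => (-1) * (b k v * (c v).re) := by
      rw [e4]
      funext v
      ring
    rw [this, hL.smul _ _ ((hbb k).mul hR)]
    ring
  have g1 : ∀ k, L (fun v => a k v * (c v).re) = 0 ∧ L (fun v => b k v * (c v).im) = 0 := by
    intro k
    have h1 := f1 k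
    have h2 := f1 (-k)
    rw [e3, f3] at h2
    constructor <;> linarith
  have g2 : ∀ k, L (fun v => a k v * (c v).im) = 0 ∧ L (fun v => b k v * (c v).re) = 0 := by
    intro k
    have h1 := f2 k
    have h2 := f2 (-k)
    rw [e3, f4] at h2
    constructor <;> linarith
  exact ⟨(fn_w x hL hcr).ext fn_zero (fun k => (g1 k).1) (fun k => (g2 k).2) hf,
    (fn_w x hL hci).ext fn_zero (fun k => (g2 k).1) (fun k => (g1 k).2) hf⟩

end

section

variable {K : Type} [Field K] [NumberField K]

/-- the characters of finite order of the absolute Galois group -/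
def chars (K : Type) [Field K] [NumberField K] : Subgroup (GK K →* Circle) where
  carrier := {χ | IsOpen (χ.ker : Set (GK K))}
  mul_mem' := by
    intro a b ha hb
    have h1 : IsOpen ((a.ker ⊓ b.ker : Subgroup (GK K)) : Set (GK K)) := by
      rw [Subgroup.coe_inf]
      exact IsOpen.inter ha hb
    refine Subgroup.isOpen_mono (fun g hg => ?_) h1
    rw [Subgroup.mem_inf, MonoidHom.mem_ker, MonoidHom.mem_ker] at hg
    rw [MonoidHom.mem_ker, MonoidHom.mul_apply, hg.1, hg.2, mul_one]
  one_mem' := by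
    have : ((1 : GK K →* Circle).ker : Set (GK K)) = Set.univ := by
      ext g
      simp
    rw [Set.mem_ofPred_eq, this]
    exact isOpen_univ
  inv_mem' := by
    intro a ha
    have : ((a⁻¹).ker : Set (GK K)) = (a.ker : Set (GK K)) := by
      ext g
      simp [MonoidHom.mem_ker]
    rw [Set.mem_ofPred_eq, this]
    exact ha

theorem mem_chars {χ : GK K →* Circle} : χ ∈ chars K ↔ IsOpen (χ.ker : Set (GK K)) := Iff.rfl

open Classical in
/-- the indicator function of a coset -/
noncomputable def ind (V : Subgroup (GK K)) (g s : GK K) : ℝ := if g⁻¹ * s ∈ V then 1 else 0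

variable {L : (HeightOneSpectrum (𝓞 K) → ℝ) → ℝ}

theorem lf_sum (hL : Lf L) {κ : Type} (s : Finset κ) {F : κ → HeightOneSpectrum (𝓞 K) → ℝ}
    (hF : ∀ k ∈ s, Bd (F k)) : L (fun v => ∑ k ∈ s, F k v) = ∑ k ∈ s, L (F k) := by
  classical
  induction s using Finset.induction_on with
  | empty =>
    simp only [Finset.sum_empty]
    have h := hL.smul 0 (fun _ => (0 : ℝ)) (Bd.const 0)
    simpa using h
  | insert a s ha ih =>
    simp only [Finset.sum_insert ha]
    rw [hL.add _ _ (hF a (Finset.mem_insert_self _ _))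
      (Bd.sum _ fun k hk => hF k (Finset.mem_insert_of_mem hk)),
      ih fun k hk => hF k (Finset.mem_insert_of_mem hk)]

/-- **Artin symbols.** -/
theorem symb (hL : Lf L) (σ : HeightOneSpectrum (𝓞 K) → GK K) (U : Subgroup (GK K))
    {F : HeightOneSpectrum (𝓞 K) → ℝ} (hF : Bd F)
    (h : ∀ χ ∈ chars K, ¬ U ≤ χ.ker → L (fun v => F v * (χ (σ v) : ℂ).re) = 0 ∧
      L (fun v => F v * (χ (σ v) : ℂ).im) = 0)
    (V : Subgroup (GK K)) (hV : IsOpen (V : Set (GK K))) (hc : commutator (GK K) ≤ V)
    (g u : GK K) (hu : u ∈ U) :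
    L (fun v => F v * (ind V g (σ v) - ind V (g * u) (σ v))) = 0 := by
  classical
  have hn : V.Normal := Subgroup.Normal.of_commutator_le (GK K) hc
  have : Finite (GK K ⧸ V) := Subgroup.quotient_finite_of_isOpen V hV
  letI : Fintype (GK K ⧸ V) := Fintype.ofFinite _
  letI : CommGroup (GK K ⧸ V) :=
    { (inferInstance : Group (GK K ⧸ V)) with
      mul_comm := by
        intro a b
        induction a using QuotientGroup.induction_on with
        | H a =>
        induction b using QuotientGroup.induction_on with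
        | H b =>
        rw [← QuotientGroup.mk_mul, ← QuotientGroup.mk_mul, QuotientGroup.eq]
        have h1 : (a * b)⁻¹ * (b * a) = ⁅b⁻¹, a⁻¹⁆ := by
          rw [commutatorElement_def]
          group
        rw [h1]
        exact hc (Subgroup.commutator_mem_commutator (Subgroup.mem_top _) (Subgroup.mem_top _)) }
  let A := Additive (GK K ⧸ V)
  let q : GK K → A := fun s => Additive.ofMul (QuotientGroup.mk s)
  have hq : ∀ s t, q (s * t) = q s + q t := fun s t => rfl
  have hq1 : q 1 = 0 := rfl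
  -- the characters
  let X : AddChar A ℂ → (GK K →* Circle) := fun ψ =>
    { toFun := fun s => (AddChar.circleEquivComplex.symm ψ : AddChar A Circle) (q s)
      map_one' := by rw [hq1, AddChar.map_zero_eq_one]
      map_mul' := fun s t => by rw [hq, AddChar.map_add_eq_mul] }
  have hX : ∀ ψ s, ((X ψ s : Circle) : ℂ) = ψ (q s) := by
    intro ψ s
    have h1 := AddChar.circleEquivComplex.apply_symm_apply ψ
    conv_rhs => rw [← h1]
    rfl
  have hXm : ∀ ψ, X ψ ∈ chars K := by
    intro ψ
    rw [mem_chars]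
    refine Subgroup.isOpen_mono (fun s hs => ?_) hV
    have h1 : q s = 0 := by
      have : (QuotientGroup.mk s : GK K ⧸ V) = 1 := (QuotientGroup.eq_one_iff s).2 hs
      show Additive.ofMul (QuotientGroup.mk s : GK K ⧸ V) = 0
      rw [this]
      rfl
    rw [MonoidHom.mem_ker]
    show (AddChar.circleEquivComplex.symm ψ : AddChar A Circle) (q s) = 1
    rw [h1, AddChar.map_zero_eq_one]
  have hind : ∀ g s : GK K, ind V g s =
      ((Fintype.card A : ℂ)⁻¹ * ∑ ψ : AddChar A ℂ, ψ (q (g⁻¹ * s))).re := by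
    intro g s
    rw [AddChar.sum_apply_eq_ite]
    have h1 : q (g⁻¹ * s) = 0 ↔ g⁻¹ * s ∈ V := by
      rw [← QuotientGroup.eq_one_iff]
      exact Iff.rfl
    have hne : (Fintype.card A : ℂ) ≠ 0 := by
      exact_mod_cast Fintype.card_ne_zero
    unfold ind
    by_cases h2 : g⁻¹ * s ∈ V
    · rw [if_pos h2, if_pos (h1.2 h2), inv_mul_cancel₀ hne, Complex.one_re]
    · rw [if_neg h2, if_neg fun h3 => h2 (h1.1 h3), mul_zero, Complex.zero_re]
  -- the coefficients
  set co : AddChar A ℂ → ℂ := fun ψ =>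
    (Fintype.card A : ℂ)⁻¹ * (ψ (q g⁻¹) - ψ (q (g * u)⁻¹)) with hco
  have e1 : ∀ v, F v * (ind V g (σ v) - ind V (g * u) (σ v)) = ∑ ψ : AddChar A ℂ,
      ((co ψ).re * (F v * (X ψ (σ v) : ℂ).re) + (-(co ψ).im) * (F v * (X ψ (σ v) : ℂ).im)) := by
    intro v
    rw [hind, hind, ← Complex.sub_re, ← mul_sub, ← Finset.sum_sub_distrib, Finset.mul_sum,
      Complex.re_sum, Finset.mul_sum]
    refine Finset.sum_congr rfl fun ψ _ => ?_
    have h2 : (Fintype.card A : ℂ)⁻¹ * (ψ (q (g⁻¹ * σ v)) - ψ (q ((g * u)⁻¹ * σ v))) =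
        co ψ * (X ψ (σ v) : ℂ) := by
      rw [hX, hq, hq, AddChar.map_add_eq_mul, AddChar.map_add_eq_mul, hco]
      ring
    rw [h2, Complex.mul_re]
    ring
  have hbr : ∀ ψ, Bd fun v => F v * (X ψ (σ v) : ℂ).re := fun ψ => hF.mul ⟨1, fun v =>
    (Complex.abs_re_le_norm _).trans (Circle.norm_coe _).le⟩
  have hbi : ∀ ψ, Bd fun v => F v * (X ψ (σ v) : ℂ).im := fun ψ => hF.mul ⟨1, fun v =>
    (Complex.abs_im_le_norm _).trans (Circle.norm_coe _).le⟩
  have e2 : (fun v => F v * (ind V g (σ v) - ind V (g * u) (σ v))) = fun v =>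
      ∑ ψ : AddChar A ℂ, ((co ψ).re * (F v * (X ψ (σ v) : ℂ).re) +
        (-(co ψ).im) * (F v * (X ψ (σ v) : ℂ).im)) := funext e1
  rw [e2, lf_sum hL _ fun ψ _ => ((hbr ψ).const_mul _).add ((hbi ψ).const_mul _)]
  refine Finset.sum_eq_zero fun ψ _ => ?_
  rw [hL.add _ _ ((hbr ψ).const_mul _) ((hbi ψ).const_mul _), hL.smul _ _ (hbr ψ),
    hL.smul _ _ (hbi ψ)]
  by_cases h3 : U ≤ (X ψ).ker
  · have h4 : co ψ = 0 := by
      rw [hco]
      simp only
      have h5 : ψ (q (g * u)⁻¹) = ψ (q g⁻¹) := by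
        have h6 : ψ (q u⁻¹) = 1 := by
          rw [← hX]
          have h7 : X ψ u⁻¹ = 1 := h3 (U.inv_mem hu)
          rw [h7]
          rfl
        rw [mul_inv_rev, hq, AddChar.map_add_eq_mul, h6, one_mul]
      rw [h5, sub_self, mul_zero]
    rw [h4]
    simp
  · rw [(h _ (hXm ψ) h3).1, (h _ (hXm ψ) h3).2]
    simp

end

end Pool.Agent.Q284.TW
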